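import Pool.Agent.R468.HH.Large

/-!
Lower bounds for the number of odd integers up to `x` of a given height, in the full range of heights
that the random model predicts, up to `(β₀ - ε) log x` with `β₀ = 25.385...`.

Author: helper468. Uses the counts of the levels of the Collatz tree in Pool/Agent/Y966/LD.
-/

set_option autoImplicit false

namespace Pool.Agent.Results.MP_2b866c_nt.LargeHeights

/-- `C(m) = (3m+1)/2^e(m)`, `2^e(m)` the largest power of `2` dividing `3m+1` -/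
def C (m : ℕ) : ℕ := (3 * m + 1) / 2 ^ padicValNat 2 (3 * m + 1)

/-- `h` is the height of `m`: the least `k ≥ 1` with `C^k(m) = 1` (so it is finite) -/
def IsHeight (m h : ℕ) : Prop := IsLeast {k : ℕ | 1 ≤ k ∧ C^[k] m = 1} h

/-- the number of odd integers `1 ≤ m ≤ x` with `h(m) = k` -/
noncomputable def N (x : ℝ) (k : ℕ) : ℕ := {m : ℕ | m % 2 = 1 ∧ (m : ℝ) ≤ x ∧ IsHeight m k}.ncard

/-- `S(β) = (1 + β log 3) / log 2` -/
noncomputable def S (β : ℝ) : ℝ := (1 + β * Real.log 3) / Real.log 2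

/-- `e(β) = S(β) H(β / S(β)) - β log 3`, where `H` is the binary entropy function -/
noncomputable def e (β : ℝ) : ℝ := S β * Real.binEntropy (β / S β) - β * Real.log 3

/-- There is `β₀` between `25.3854` and `25.3855` with `e(β₀) = 0` and `e(β) > 0` for `0 < β < β₀`
(and `e(2 / log (16/9)) = 1`) such that:
(1) for every `ε > 0`, for all large `x` and uniformly in the integers `1 ≤ k ≤ (β₀ - ε) log x`, the
number of odd `m ≤ x` of height exactly `k` is at least `x^(e(k / log x) - ε)`;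
(2) for every `ε > 0` there are infinitely many odd `m` of finite height at least `(β₀ - ε) log m`. -/
theorem result :
    ∃ β₀ : ℝ, 25.3854 < β₀ ∧ β₀ < 25.3855 ∧ e β₀ = 0 ∧ (∀ β : ℝ, 0 < β → β < β₀ → 0 < e β) ∧
      e (2 / Real.log (16 / 9)) = 1 ∧
      (∀ ε : ℝ, 0 < ε → ∃ X₀ : ℝ, ∀ x : ℝ, X₀ ≤ x → ∀ k : ℕ, 1 ≤ k →
        (k : ℝ) ≤ (β₀ - ε) * Real.log x → x ^ (e (k / Real.log x) - ε) ≤ (N x k : ℝ)) ∧
      (∀ ε : ℝ, 0 < ε →
        {m : ℕ | m % 2 = 1 ∧ ∃ k : ℕ, IsHeight m k ∧ (β₀ - ε) * Real.log m ≤ k}.Infinite) := by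
  obtain ⟨β₀, h1, h2, h3⟩ := Pool.Agent.R468.HH.exists_beta
  have h0 : 0 < β₀ := by linarith
  have hpos : ∀ β : ℝ, 0 < β → β < β₀ → 0 < e β := by
    intro β hβ hβ1
    have h4 : e β = Pool.Agent.Y966.LD.SS β *
        Pool.Agent.H395R2.G3.FF (Pool.Agent.R468.HH.rho β) := Pool.Agent.R468.HH.ee_rho hβ.le
    rw [h4]
    exact mul_pos (Pool.Agent.Y966.LD.SS_pos hβ.le) (Pool.Agent.R468.HH.ee_pos h0 h3 hβ hβ1)
  refine ⟨β₀, h1, h2, ?_, hpos, Pool.Agent.R468.HH.ee_mean, ?_, ?_⟩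
  · have h4 : e β₀ = Pool.Agent.Y966.LD.SS β₀ *
        Pool.Agent.H395R2.G3.FF (Pool.Agent.R468.HH.rho β₀) := Pool.Agent.R468.HH.ee_rho h0.le
    rw [h4, h3, mul_zero]
  · intro ε hε
    set B : ℝ := max (β₀ - ε) (β₀ / 2) with hB
    have hB0 : 0 < B := lt_of_lt_of_le (by positivity) (le_max_right _ _)
    have hB1 : B < β₀ := max_lt (by linarith) (by linarith)
    obtain ⟨X₀, hX₀, h⟩ := Pool.Agent.R468.HH.lower_unif hB0
      (Pool.Agent.R468.HH.ee_pos h0 h3 hB0 hB1) hε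
    refine ⟨X₀, fun x hx k hk hk2 => h x hx k hk (hk2.trans ?_)⟩
    apply mul_le_mul_of_nonneg_right (le_max_left _ _)
    exact Real.log_nonneg (by linarith)
  · intro ε hε
    rw [← Nat.frequently_atTop_iff_infinite, Filter.frequently_atTop]
    intro M
    obtain ⟨m, hm, hm1, k, hk, hk2⟩ := Pool.Agent.R468.HH.large_inf h0 h3 hε M
    exact ⟨m, hm, hm1, k, hk, hk2⟩

end Pool.Agent.Results.MP_2b866c_nt.LargeHeights
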