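import Pool.Agent.R468.LL.Fin

/-!
THE LOCAL LIMIT LAW OF THE HEIGHTS. The number of odd integers up to `x` whose height is exactly `k`,
uniformly for `k` within `O(√(log x))` of the mean value.

Author: helper468. Uses the local limit theorem for the first hits of a finite set (Pool/Agent/H499R2/LT),
the thin set estimates (Pool/Agent/R344/TH) and the law of the trajectories (Pool/Agent/H828R3/Exc).
-/

set_option autoImplicit false

namespace Pool.Agent.Results.MP_2b866c_nt.LocalLimitLaw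

open Filter Topology

/-- `C(m) = (3m+1)/2^e(m)`, `2^e(m)` the largest power of `2` dividing `3m+1` -/
def C (m : ℕ) : ℕ := (3 * m + 1) / 2 ^ padicValNat 2 (3 * m + 1)

/-- `h` is the height of `m`: the least `k ≥ 1` with `C^k(m) = 1` (so it is finite) -/
def IsHeight (m h : ℕ) : Prop := IsLeast {k : ℕ | 1 ≤ k ∧ C^[k] m = 1} h

/-- the number of odd integers `1 ≤ m ≤ x` with `h(m) = k` -/
noncomputable def N (x : ℝ) (k : ℕ) : ℕ := {m : ℕ | m % 2 = 1 ∧ (m : ℝ) ≤ x ∧ IsHeight m k}.ncard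

/-- among the odd positive integers, those with the property `P` have the natural density `δ` -/
def HasOddDensity (P : ℕ → Prop) (δ : ℝ) : Prop :=
  Tendsto (fun M : ℕ => 2 / (M : ℝ) * ({m : ℕ | m ≤ M ∧ Odd m ∧ P m}.ncard : ℝ)) atTop (𝓝 δ)

/-- the constant `μ = 2 / log (16/9)` of the mean value -/
noncomputable def μ : ℝ := 2 / Real.log (16 / 9)

/-- the constant `σ² = 2 (log 2)² / (log (4/3))³` of the variance -/
noncomputable def σ2 : ℝ := 2 * Real.log 2 ^ 2 / Real.log (4 / 3) ^ 3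

/-- the value at `k` of the density of the normal distribution of mean `μ log x` and variance
`σ² log x` -/
noncomputable def g (x : ℝ) (k : ℕ) : ℝ :=
  Real.exp (-(((k : ℝ) - μ * Real.log x) ^ 2 / (2 * (σ2 * Real.log x)))) /
    Real.sqrt (2 * Real.pi * (σ2 * Real.log x))

theorem odd_density_of {P : ℕ → Prop} {δ : ℝ}
    (h : Pool.Agent.H499R2.ND.Dn (fun m => m % 2 = 1 ∧ P m) (δ / 2)) : HasOddDensity P δ := by
  unfold HasOddDensity
  have h1 := h.const_mul 2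
  rw [mul_div_cancel₀ δ (by norm_num : (2 : ℝ) ≠ 0)] at h1
  refine h1.congr fun M => ?_
  have e : {m : ℕ | 1 ≤ m ∧ m ≤ M ∧ m % 2 = 1 ∧ P m} = {m : ℕ | m ≤ M ∧ Odd m ∧ P m} := by
    ext m
    constructor
    · rintro ⟨g1, g2, g3, g4⟩
      exact ⟨g2, Nat.odd_iff.2 g3, g4⟩
    · rintro ⟨g2, g3, g4⟩
      exact ⟨g3.pos, g2, Nat.odd_iff.1 g3, g4⟩
  unfold Pool.Agent.H499R2.ND.cnt
  rw [e]
  ring

theorem isHt_iff {m h : ℕ} : Pool.Agent.H499R2.ND.IsHt m h ↔ IsHeight m h := by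
  constructor
  · rintro ⟨h1, h2, h3⟩
    refine ⟨⟨h1, h2⟩, fun j hj => ?_⟩
    by_contra hlt
    exact h3 j hj.1 (by omega) hj.2
  · rintro ⟨⟨h1, h2⟩, h3⟩
    refine ⟨h1, h2, fun j hj1 hj2 hj3 => ?_⟩
    have := h3 ⟨hj1, hj3⟩
    omega

/-- THE LOCAL LIMIT LAW OF THE HEIGHTS. There are `δ` and a function `Ψ` such that

* `0 < δ ≤ 1`, `δ` is the density of the odd integers of finite height among the odd integers, and
  `δ = 1` iff all odd integers have finite height;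
* `Ψ` is continuous, has period one, lies between `δ log 2` and `2 δ log 2`, and its mean is `δ`;
* `N(x, k) / ((x/2) g(x, k)) - Ψ (log_2 (3^k x))` tends to zero as `x → ∞`, uniformly for the integers
  `k` with `|k - μ log x| ≤ K √(log x)`, for every `K`;

and `N(x, k) ≤ A x / √(log x)` for some `A`, all `x ≥ 2` and all `k`. -/
theorem result : ∃ (δ : ℝ) (Ψ : ℝ → ℝ), 0 < δ ∧ δ ≤ 1 ∧
    (δ = 1 ↔ ∀ m : ℕ, Odd m → ∃ h : ℕ, IsHeight m h) ∧
    HasOddDensity (fun m => ∃ h : ℕ, IsHeight m h) δ ∧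
    Continuous Ψ ∧ (∀ s : ℝ, Ψ (s + 1) = Ψ s) ∧
    (∀ s : ℝ, δ * Real.log 2 ≤ Ψ s ∧ Ψ s ≤ 2 * δ * Real.log 2) ∧
    (∫ s in (0 : ℝ)..1, Ψ s = δ) ∧
    (∀ K ε : ℝ, 0 < ε → ∃ X₀ : ℝ, ∀ x : ℝ, X₀ ≤ x → ∀ k : ℕ,
      |(k : ℝ) - μ * Real.log x| ≤ K * Real.sqrt (Real.log x) →
      |(N x k : ℝ) / (x / 2 * g x k) - Ψ (Real.logb 2 (3 ^ k * x))| ≤ ε) ∧
    ∃ A : ℝ, 0 < A ∧ ∀ x : ℝ, 2 ≤ x → ∀ k : ℕ, (N x k : ℝ) ≤ A * x / Real.sqrt (Real.log x) := by
  obtain ⟨δ, Ψ, h0, h1, h2, h3, h4, h5, h6, h7, h8⟩ := Pool.Agent.R468.LL.main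
  have hodd : ∀ m : ℕ, Odd m → (Pool.Agent.H499R2.ND.Bas m ↔ ∃ h : ℕ, IsHeight m h) := fun m hm => by
    rw [Pool.Agent.H499R2.ND.ht_iff hm]
    exact exists_congr fun h => isHt_iff
  refine ⟨δ, Ψ, h0, h1, ?_, ?_, h4, h5, h6, h7, h8, Pool.Agent.R468.LL.N_upper⟩
  · rw [h2, Pool.Agent.H499R2.ND.bas_all_iff]
    exact forall_congr' fun m => forall_congr' fun _ => exists_congr fun h => isHt_iff
  · apply odd_density_of
    have hB : Pool.Agent.H499R2.ND.Dn (fun m => m % 2 = 1 ∧ Pool.Agent.H499R2.ND.Bas m) (δ / 2) := by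
      have := Pool.Agent.H499R2.ND.inv_prog Pool.Agent.H499R2.ND.Bas_inv h3 (q := 2) (by norm_num) 1
      exact_mod_cast this
    exact Pool.Agent.H499R2.LT.Dn_iff (fun n _ => and_congr_right fun hn => hodd n (Nat.odd_iff.2 hn)) hB

end Pool.Agent.Results.MP_2b866c_nt.LocalLimitLaw
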