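import Pool.Agent.R344.LS.AA

/-!
# The reciprocal mass of the odd integers of given height

The sum of `1/m` over the odd `m` of height `h` tends to `(1/2) log (4/3) δ`, where `δ` is the density
of the odd integers of finite height; the mass is distributed over the values of the sum of the
exponents like the sum of `h` independent geometric random variables of parameter `1/2`.

Author: helper344.
-/

set_option autoImplicit false

namespace Pool.Agent.Results.MP_2b866c_nt.ReciprocalMassOfHeights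

open Filter Topology

/-- `C(m) = (3m+1)/2^e(m)`, `2^e(m)` the largest power of `2` dividing `3m+1` -/
def C (m : ℕ) : ℕ := (3 * m + 1) / 2 ^ padicValNat 2 (3 * m + 1)

/-- `h` is the height of `m`: the least `k ≥ 1` with `C^k(m) = 1` (so it is finite) -/
def IsHeight (m h : ℕ) : Prop := IsLeast {k : ℕ | 1 ≤ k ∧ C^[k] m = 1} h

/-- the sum of the exponents `e(m) + e(C(m)) + ... + e(C^(h-1)(m))` -/
def exps (h m : ℕ) : ℕ := ∑ i ∈ Finset.range h, padicValNat 2 (3 * C^[i] m + 1)

/-- the sum of the reciprocals of the members of a set of positive integers -/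
noncomputable def mass (A : Set ℕ) : ℝ := ∑' m : A, (1 : ℝ) / ((m : ℕ) : ℝ)

/-- THE RECIPROCAL MASS OF THE ODD INTEGERS OF GIVEN HEIGHT. There is a `δ` such that

* `0 < δ ≤ 1`, `δ` is the density, among the odd positive integers, of those of finite height, and
  `δ = 1` iff all odd positive integers have finite height;
* for every `h` the sum of `1/m` over the odd `m` of height `h` converges, and it tends to
  `(1/2) log (4/3) δ` as `h → ∞`;
* for every `ε > 0`, all large `h` and all `K`, the sum over `k < K` of the differences, in absolute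
  value, between the mass of the odd `m` of height `h` with `exps h m = k + 1` and
  `(1/2) log (4/3) δ binom (k, h - 1) / 2^(k + 1)` is at most `ε`. -/
theorem result : ∃ δ : ℝ, 0 < δ ∧ δ ≤ 1 ∧ (δ = 1 ↔ ∀ m : ℕ, Odd m → ∃ h : ℕ, IsHeight m h) ∧
    Tendsto (fun M : ℕ => 2 / (M : ℝ) * ({m : ℕ | m ≤ M ∧ Odd m ∧ ∃ h : ℕ, IsHeight m h}.ncard : ℝ))
      atTop (𝓝 δ) ∧
    (∀ h : ℕ, Summable (fun m : {m : ℕ | m % 2 = 1 ∧ IsHeight m h} => (1 : ℝ) / ((m : ℕ) : ℝ))) ∧
    Tendsto (fun h : ℕ => mass {m : ℕ | m % 2 = 1 ∧ IsHeight m h}) atTop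
      (𝓝 (Real.log (4 / 3) / 2 * δ)) ∧
    (∀ ε : ℝ, 0 < ε → ∃ h₀ : ℕ, ∀ h : ℕ, h₀ ≤ h → ∀ K : ℕ, ∑ k ∈ Finset.range K,
      |mass {m : ℕ | m % 2 = 1 ∧ IsHeight m h ∧ exps h m = k + 1} -
        Real.log (4 / 3) / 2 * δ * ((k.choose (h - 1) : ℝ) / 2 ^ (k + 1))| ≤ ε) :=
  Pool.Agent.R344.LS.heights

end Pool.Agent.Results.MP_2b866c_nt.ReciprocalMassOfHeights
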